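import Pool.Agent.H98.S4.Targets

/-! MP_eb32d7_co: module 3C (colouring of the rest with equal missing colours). -/

set_option autoImplicit false

namespace Pool.Agent.H84.S4

open Finset Pool.Agent.H98.S4

/-- the map onto blocks -/
def tt {V β : Type} (f : V → β) (P : Finset β) (F : Finset V) :
    ({v // v ∉ F} ⊕ {b // b ∈ P}) → β :=
  Sum.elim (fun u => f u.1) (fun b => b.1)

theorem card_split {V β : Type} [Fintype V] [DecidableEq V] [DecidableEq β] (f : V → β)
    (F : Finset V) (b : β) :
    (univ.filter (fun u => f u = b)).card =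
      (F.filter (fun x => f x = b)).card + (univ.filter (fun v => f v = b ∧ v ∉ F)).card := by
  classical
  have h1 := Finset.card_filter_add_card_filter_not (s := univ.filter (fun u => f u = b))
    (fun u => u ∈ F)
  rw [← h1]
  congr 1
  · congr 1
    ext x
    simp [and_comm]
  · congr 1
    ext x
    simp

theorem fib_card {V β : Type} [Fintype V] [DecidableEq V] [DecidableEq β] (f : V → β)
    (P : Finset β) (F : Finset V) (b : β) :
    (univ.filter (fun x => tt f P F x = b)).card =
      (univ.filter (fun v => f v = b ∧ v ∉ F)).card + if b ∈ P then 1 else 0 := by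
  classical
  rw [Finset.card_filter, Fintype.sum_sum_type]
  congr 1
  · rw [← Finset.card_filter]
    refine Finset.card_bij (fun u _ => u.1) ?_ ?_ ?_
    · intro u hu
      rw [Finset.mem_filter] at hu ⊢
      exact ⟨Finset.mem_univ _, hu.2, u.2⟩
    · intro u _ v _ huv
      exact Subtype.ext huv
    · intro v hv
      rw [Finset.mem_filter] at hv
      exact ⟨⟨v, hv.2.2⟩, by rw [Finset.mem_filter]; exact ⟨Finset.mem_univ _, hv.2.1⟩, rfl⟩
  · rw [← Finset.card_filter]
    split_ifs with hb
    · rw [Finset.card_eq_one]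
      refine ⟨⟨b, hb⟩, ?_⟩
      ext x
      rw [Finset.mem_filter, Finset.mem_singleton]
      constructor
      · intro hx
        exact Subtype.ext hx.2
      · intro hx
        exact ⟨Finset.mem_univ _, by rw [hx]; rfl⟩
    · rw [Finset.card_eq_zero]
      ext x
      rw [Finset.mem_filter]
      constructor
      · intro hx
        have h2 : x.1 = b := hx.2
        exact absurd (h2 ▸ x.2) hb
      · intro hx
        exact absurd hx (Finset.notMem_empty _)

theorem fin3 : ∀ y z p q : Fin 3, y ≠ z → p ≠ y → p ≠ z → q ≠ y → q ≠ z → q = p := by decide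

theorem s4_3C (h3A : T_3A) (hFS : T_FS) : T_3C := by
  classical
  intro V β κ _ _ _ _ G f cp K P F hB hR hF
  let e : Fin P.card ≃ {b // b ∈ P} := P.equivFin.symm
  obtain ⟨hdeg, hac⟩ := h3A V β κ G f cp K P F P.card e hB hR hF
  -- the fibres
  have hnon : ∀ b ∈ P, (univ.filter (fun v => f v = b ∧ v ∉ F)).card = 2 := by
    intro b hb
    have h2 := hF.two b hb
    have hne : (F.filter (fun x => f x = b)).Nonempty := by
      rw [← Finset.card_pos, h2]; norm_num
    obtain ⟨x, hx⟩ := hne
    rw [Finset.mem_filter] at hx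
    have h4 := hB x
    rw [hx.2] at h4
    have := card_split f F b
    omega
  have hfib : ∀ w, (univ.filter (fun x => tt f P F x = tt f P F w)).card = 3 := by
    intro w
    rw [fib_card]
    by_cases hb : tt f P F w ∈ P
    · rw [if_pos hb, hnon _ hb]
    · rw [if_neg hb]
      obtain ⟨v, hv⟩ : ∃ v : V, f v = tt f P F w := by
        rcases w with u | b
        · exact ⟨u.1, rfl⟩
        · exact absurd b.2 hb
      rw [← hv] at hb ⊢
      have h4 := hB v
      have h1 : (F.filter (fun x => f x = f v)).card = 1 := by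
        obtain ⟨x, hxF, hx⟩ := hF.ex v
        rw [Finset.card_eq_one]
        refine ⟨x, ?_⟩
        ext y
        rw [Finset.mem_filter, Finset.mem_singleton]
        constructor
        · intro hy
          exact hF.uniq y hy.1 x hxF (hy.2.trans hx.symm) (by rw [hy.2]; exact hb)
        · intro hy
          rw [hy]
          exact ⟨hxF, hx⟩
      have := card_split f F (f v)
      omega
  obtain ⟨c, hc1, hc2⟩ := hFS _ _ (F1 G f P F e) (tt f P F) hdeg hac hfib
  -- equal missing colours
  have hstep : ∀ (i : Fin P.card) (h : i.1 + 1 < P.card),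
      c (Sum.inr (e ⟨i.1 + 1, h⟩)) = c (Sum.inr (e i)) := by
    intro i h
    have h2 := hnon (e i).1 (e i).2
    rw [Finset.card_eq_two] at h2
    obtain ⟨y, z, hyz, hset⟩ := h2
    have hy : f y = (e i).1 ∧ y ∉ F := by
      have : y ∈ univ.filter (fun v => f v = (e i).1 ∧ v ∉ F) := by rw [hset]; simp
      simpa using this
    have hz : f z = (e i).1 ∧ z ∉ F := by
      have : z ∈ univ.filter (fun v => f v = (e i).1 ∧ v ∉ F) := by rw [hset]; simp
      simpa using this
    have a1 : c (Sum.inl ⟨y, hy.2⟩) ≠ c (Sum.inl ⟨z, hz.2⟩) := by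
      apply hc2
      · show f y = f z
        rw [hy.1, hz.1]
      · intro hh
        exact hyz (congrArg Subtype.val (Sum.inl.inj hh))
    have a2 : ∀ (x : V) (hx : f x = (e i).1 ∧ x ∉ F), c (Sum.inr (e i)) ≠ c (Sum.inl ⟨x, hx.2⟩) := by
      intro x hx
      apply hc2
      · show (e i).1 = f x
        rw [hx.1]
      · exact Sum.inr_ne_inl
    have a3 : ∀ (x : V) (hx : f x = (e i).1 ∧ x ∉ F),
        c (Sum.inr (e ⟨i.1 + 1, h⟩)) ≠ c (Sum.inl ⟨x, hx.2⟩) := by
      intro x hx
      apply hc1
      exact Or.inr ⟨⟨x, hx.2⟩, i, h, hx.1, Or.inr ⟨rfl, rfl⟩⟩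
    exact fin3 _ _ _ _ a1 (a2 y hy) (a2 z hz) (a3 y hy) (a3 z hz)
  have hg : ∃ g : Fin 3, ∀ i : Fin P.card, c (Sum.inr (e i)) = g := by
    by_cases h0 : P.card = 0
    · refine ⟨0, fun i => ?_⟩
      have := i.2
      omega
    · refine ⟨c (Sum.inr (e ⟨0, Nat.pos_of_ne_zero h0⟩)), ?_⟩
      rintro ⟨i, hi⟩
      induction i with
      | zero => rfl
      | succ n ih =>
        have hn : n < P.card := by omega
        rw [hstep ⟨n, hn⟩ hi]
        exact ih hn
  obtain ⟨g, hg⟩ := hg
  refine ⟨fun v => if h : v ∉ F then c (Sum.inl ⟨v, h⟩) else 0, g, ?_, ?_, ?_⟩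
  · intro u v hu hv huv
    simp only [dif_pos hu, dif_pos hv]
    apply hc1
    exact Or.inl ⟨⟨u, hu⟩, ⟨v, hv⟩, rfl, rfl, huv⟩
  · intro u v hu hv huv hne
    simp only [dif_pos hu, dif_pos hv]
    apply hc2
    · exact huv
    · intro hh
      exact hne (congrArg Subtype.val (Sum.inl.inj hh))
  · intro v hv hP
    simp only [dif_pos hv]
    have h1 := hg (e.symm ⟨f v, hP⟩)
    rw [Equiv.apply_symm_apply] at h1
    rw [← h1]
    apply hc2
    · rfl
    · exact Sum.inl_ne_inr

end Pool.Agent.H84.S4
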